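import Mathlib
import Pool.Agent.H.MP_ee0f4e_nt.Main

namespace Pool.Agent.Results.MP_ee0f4e_nt.Full

open Finset

def IsCoeff (r s : ℕ) (c : ℕ → ℚ) : Prop :=
  ∀ m : ℕ, (∑ k ∈ range (m + 1), (m.choose k : ℚ) ^ r * ((m + k).choose k : ℚ) ^ r)
    = ∑ k ∈ range (m + 1), (m.choose k : ℚ) ^ s * ((m + k).choose k : ℚ) ^ s * c k

theorem result : ∀ r : ℕ, 4 < r →
    (∃ c : ℕ → ℚ, IsCoeff r 4 c) ∧
    ∀ c : ℕ → ℚ, IsCoeff r 4 c → ∃ k ≤ 8, ¬ ∃ z : ℤ, c k = z := by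
  intro r hr
  refine ⟨?_, fun c hc => ?_⟩
  · refine Pool.Agent.H.MP_ee0f4e_nt.exists_sol
      (fun m k => (m.choose k : ℚ) ^ 4 * ((m + k).choose k : ℚ) ^ 4) _ (fun m => ?_)
    have h1 : 0 < m.choose m := Nat.choose_pos le_rfl
    have h2 : 0 < (m + m).choose m := Nat.choose_pos (by omega)
    positivity
  · by_contra hn
    push Not at hn
    exact Pool.Agent.H.MP_ee0f4e_nt.main r hr c hc hn

end Pool.Agent.Results.MP_ee0f4e_nt.Full
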